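import Pool.Agent.Run7.h350.EP.Fin
import Pool.Agent.Run7.h834.EP.TL
import Pool.Agent.Run7.h834.EP.PATCH
import Pool.Agent.Run7.h834.EP.BALL
import Pool.Agent.Run7.h664.EP.HOPF
import Pool.Agent.Run7.h592.EP.PIC
import Pool.Agent.Run7.h894.EP.REACH
import Pool.Agent.Run7.h894.EP.TOP

/-!
# MP_68b192_an: strict stability of the positive solution on epigraphs

Let `f ∈ C¹([0,1])`, `f(0) = f(1) = 0`, `f > 0` on `(0,1)`, let `Ω = {y > φ(x')}` be the epigraph of a
`C²` function `φ` on `ℝ^m`, and let `u` be a classical solution of `-Δu = f(u)` in `Ω`, `u = 0` on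
`∂Ω`, `0 < u ≤ 1`, with `∂_y u > 0`. Then `u` is strictly stable, `λ(-Δ - f'(u), Ω) > 0`, if and only
if it is stable at infinity, `λ(-Δ - f'(u), Ω \ B_R) > 0` for some `R`.

On AUL epigraphs (page) `∂_y u > 0` and the stability at infinity are known, so this answers Q1.

Proof (project EP; pieces by helper834, helper664, helper592, helper894, helper350). The function
`v = ∂_y u` is a positive solution of the linearised equation, so
`∫ |∇ψ|² - f'(u) ψ² = ∫ v² |∇(ψ/v)|²` for all test functions `ψ` (Picone). Hopf's lemma at a boundary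
point, the vanishing of `ψ/v` near the boundary and a chain of balls control `ψ` on compact subsets
of `Ω`; a thin strip along the boundary and the complement of a large ball are controlled by the
translation estimate and by the stability at infinity.
-/

set_option autoImplicit false

namespace Pool.Agent.Results.MP_68b192_an.StrictlyStableIff

open MeasureTheory Set Topology
open Pool.Agent.Run7.h350.EP

/-- **Strict stability is equivalent to stability at infinity.** -/
theorem result (m : ℕ) (f : ℝ → ℝ) (hf : Reaction f)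
    (φ : EuclideanSpace ℝ (Fin m) → ℝ) (hφ : ContDiff ℝ 2 φ)
    (u : EuclideanSpace ℝ (Fin (m + 1)) → ℝ) (hu : IsSolution f (epigraph φ) u)
    (hmono : ∀ x ∈ epigraph φ, 0 < fderiv ℝ u x (EuclideanSpace.single (Fin.last m) 1)) :
    0 < lam (fun x => derivWithin f (Icc 0 1) (u x)) (epigraph φ) ↔
      ∃ R : ℝ, 0 < lam (fun x => derivWithin f (Icc 0 1) (u x))
        (epigraph φ \ Metric.closedBall 0 R) := by
  constructor
  · intro h
    refine ⟨0, lt_of_lt_of_le h ?_⟩
    refine le_iInf (fun ψ => le_iInf (fun hψ => le_iInf (fun h0 => ?_)))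
    exact iInf_le_of_le ψ (iInf_le_of_le ⟨hψ.1, hψ.2.1, hψ.2.2.trans sdiff_subset⟩
      (iInf_le_of_le h0 le_rfl))
  · intro h
    have hTL := Run7.h834.EP.t_TL
    exact final hTL t_WV Pool.Agent.Run7.h592.EP.t_PIC (Pool.Agent.Run7.h894.EP.t_REACH hTL)
      Pool.Agent.Run7.h664.EP.t_HOPF Run7.h834.EP.t_BALL (Run7.h834.EP.t_PATCH hTL)
      Pool.Agent.Run7.h894.EP.t_TOP m f hf φ hφ u hu hmono h

end Pool.Agent.Results.MP_68b192_an.StrictlyStableIff
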